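import Pool.Agent.H534R3.XApp
import Pool.Agent.H534R3.Local
import Pool.Agent.H534R3.PiThree

/-!
# Borel complexity of the differences of the sets of normal vectors

For multiplicatively independent integers `a, b > 1` and every `k ≥ 0` the set
`N_{a,k} \ N_{b,k}` of the real polynomials `g` of degree at most `k` for which `g(n) a ^ n` is
uniformly distributed modulo one and `g(n) b ^ n` is not, is complete for the class of the
differences of two sets of the third multiplicative Borel class of `Ξ_k = ℝ ^ (k + 1)`.

The set belongs to the class since uniform distribution modulo one of a sequence of continuous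
functions is a condition of the third multiplicative class.  For the hardness we use the continuous
map `w ↦ ξ(w)` from the Baire space to the reals of the starting files
(`Pool.Agent.H534R3.Rota.reduce_two_real`), for which the normality of `ξ(w)` in the two bases
means that `w` tends to infinity along the odd, respectively the even, indices; it is composed with
the embedding of `ℝ` into `Ξ_k` as the set of the constant polynomials.
-/

set_option autoImplicit false

open Filter Topology

namespace Pool.Agent.Results.MP_df8ac3_lc.Complete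

/-- The real sequence `x` is uniformly distributed modulo one. -/
def IsUD (x : ℕ → ℝ) : Prop := ∀ u v : ℝ, 0 ≤ u → u < v → v ≤ 1 →
  Tendsto
    (fun N : ℕ =>
      (((Finset.range N).filter (fun n => Int.fract (x n) ∈ Set.Ico u v)).card : ℝ) / (N : ℝ))
    atTop (nhds (v - u))

/-- The value at `n` of the polynomial of degree at most `k` with the coefficient vector `g`. -/
noncomputable def val {k : ℕ} (g : EuclideanSpace ℝ (Fin (k + 1))) (n : ℕ) : ℝ :=
  ∑ i : Fin (k + 1), g i * (n : ℝ) ^ (i : ℕ)

/-- The set `N_{a,k}` of all polynomials `g` of degree at most `k` (coefficient vectors) such that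
`g(n) a ^ n` is uniformly distributed modulo one. -/
def NormalVec (a k : ℕ) : Set (EuclideanSpace ℝ (Fin (k + 1))) :=
  {g | IsUD (fun n => val g n * (a : ℝ) ^ n)}

/-- `A` is a countable intersection of countable unions of closed sets, that is, `A` belongs to the
third multiplicative Borel class. -/
def IsPiThree {X : Type} [TopologicalSpace X] (A : Set X) : Prop :=
  ∃ F : ℕ → ℕ → Set X, (∀ i j, IsClosed (F i j)) ∧ A = ⋂ i, ⋃ j, F i j

/-- `D` is the difference of two sets of the third multiplicative class. -/
def IsDTwo {X : Type} [TopologicalSpace X] (D : Set X) : Prop :=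
  ∃ A B : Set X, IsPiThree A ∧ IsPiThree B ∧ D = A \ B

/-- `D` is complete for the class of the differences of two sets of the third multiplicative class:
it belongs to the class and its complement does not. -/
def IsDTwoComplete {X : Type} [TopologicalSpace X] (D : Set X) : Prop :=
  IsDTwo D ∧ ¬ IsDTwo Dᶜ

theorem isUD_iff (x : ℕ → ℝ) : IsUD x ↔ Pool.Agent.H534R3.UDist.UD x := by
  constructor
  · intro h s t hs hst ht
    rcases hst.eq_or_lt with rfl | hlt
    · have : (fun N : ℕ =>
          (((Finset.range N).filter (fun n => s ≤ Int.fract (x n) ∧ Int.fract (x n) < s)).card : ℝ)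
            / (N : ℝ)) = fun _ => 0 := by
        funext N
        have h0 : (Finset.range N).filter
            (fun n => s ≤ Int.fract (x n) ∧ Int.fract (x n) < s) = ∅ := by
          apply Finset.filter_eq_empty_iff.2
          intro n _ hn
          exact absurd hn.2 (not_lt.2 hn.1)
        rw [h0]
        simp
      rw [this, sub_self]
      exact tendsto_const_nhds
    · exact h s t hs hlt ht
  · intro h u v hu huv hv
    exact h u v hu huv.le hv

theorem piThree_preimage {X Y : Type} [TopologicalSpace X] [TopologicalSpace Y] {f : X → Y}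
    (hf : Continuous f) {A : Set Y} (hA : IsPiThree A) : IsPiThree (f ⁻¹' A) := by
  obtain ⟨F, hF, rfl⟩ := hA
  refine ⟨fun i j => f ⁻¹' F i j, fun i j => (hF i j).preimage hf, ?_⟩
  simp only [Set.preimage_iInter, Set.preimage_iUnion]

theorem continuous_val {k : ℕ} (n : ℕ) :
    Continuous (fun g : EuclideanSpace ℝ (Fin (k + 1)) => val g n) := by
  unfold val
  fun_prop

theorem piThree_normalVec (a k : ℕ) : IsPiThree (NormalVec a k) := by
  obtain ⟨F, hF, hFe⟩ := Pool.Agent.H534R3.UDist.ud_piThree
    (fun (g : EuclideanSpace ℝ (Fin (k + 1))) (n : ℕ) => val g n * (a : ℝ) ^ n)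
    (fun n => (continuous_val n).mul continuous_const)
  refine ⟨F, hF, ?_⟩
  rw [← hFe]
  ext g
  exact isUD_iff _

/-- The constant polynomial `c`. -/
noncomputable def cst (k : ℕ) (c : ℝ) : EuclideanSpace ℝ (Fin (k + 1)) :=
  c • EuclideanSpace.single 0 1

theorem continuous_cst (k : ℕ) : Continuous (cst k) := by
  unfold cst
  fun_prop

theorem val_cst (k : ℕ) (c : ℝ) (n : ℕ) : val (cst k c) n = c := by
  unfold val cst
  rw [Finset.sum_eq_single (0 : Fin (k + 1))]
  · simp
  · intro i _ hi
    simp [hi]
  · intro h
    exact absurd (Finset.mem_univ _) h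

theorem cst_mem (a k : ℕ) (c : ℝ) :
    cst k c ∈ NormalVec a k ↔ Pool.Agent.H534R3.UDist.UD (fun n => c * (a : ℝ) ^ n) := by
  rw [← isUD_iff]
  unfold NormalVec
  simp only [Set.mem_setOf_eq, val_cst]

theorem irrational_log_ratio (a b : ℕ) (ha : 1 < a) (hb : 1 < b)
    (hab : ∀ m n : ℕ, 0 < m → 0 < n → a ^ m ≠ b ^ n) :
    Irrational (Real.log |(a : ℝ)| / Real.log |(b : ℝ)|) := by
  have ha1 : (1 : ℝ) < a := by exact_mod_cast ha
  have hb1 : (1 : ℝ) < b := by exact_mod_cast hb
  have hla := Real.log_pos ha1
  have hlb := Real.log_pos hb1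
  rw [abs_of_pos (by linarith), abs_of_pos (by linarith)]
  rintro ⟨q, hq⟩
  have hq0 : (0 : ℝ) < q := by rw [hq]; positivity
  have hq0' : 0 < q := by exact_mod_cast hq0
  have hnum : 0 < q.num := Rat.num_pos.2 hq0'
  have hden : 0 < q.den := q.den_pos
  obtain ⟨p, hp⟩ := Int.eq_ofNat_of_zero_le hnum.le
  have hp0 : 0 < p := by
    rw [hp] at hnum
    exact_mod_cast hnum
  have hqr : (q : ℝ) = (p : ℝ) / (q.den : ℝ) := by
    rw [Rat.cast_def, hp]
    simp
  have hdr : (0 : ℝ) < (q.den : ℝ) := by exact_mod_cast hden
  have key : (q.den : ℝ) * Real.log a = (p : ℝ) * Real.log b := by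
    have h1 : Real.log a = (q : ℝ) * Real.log b := by
      rw [hq]
      field_simp
    rw [h1, hqr]
    field_simp
  have key2 : Real.log ((a : ℝ) ^ q.den) = Real.log ((b : ℝ) ^ p) := by
    rw [Real.log_pow, Real.log_pow]
    exact key
  have key3 : (a : ℝ) ^ q.den = (b : ℝ) ^ p := by
    apply Real.log_injOn_pos _ _ key2
    · exact Set.mem_Ioi.2 (by positivity)
    · exact Set.mem_Ioi.2 (by positivity)
  exact hab q.den p hden hp0 (by exact_mod_cast key3)

/-- For all multiplicatively independent integers `a, b > 1` and every `k ≥ 0` the set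
`N_{a,k} \ N_{b,k}` is complete for the class of the differences of two sets of the third
multiplicative class. -/
theorem result (a b : ℕ) (ha : 1 < a) (hb : 1 < b)
    (hab : ∀ m n : ℕ, 0 < m → 0 < n → a ^ m ≠ b ^ n) (k : ℕ) :
    IsDTwoComplete (NormalVec a k \ NormalVec b k) := by
  refine ⟨⟨_, _, piThree_normalVec a k, piThree_normalVec b k, rfl⟩, ?_⟩
  rintro ⟨A, B, hA, hB, hAB⟩
  have ha1 : (1 : ℝ) < |(a : ℝ)| := by
    rw [abs_of_nonneg (Nat.cast_nonneg a)]
    exact_mod_cast ha
  have hb1 : (1 : ℝ) < |(b : ℝ)| := by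
    rw [abs_of_nonneg (Nat.cast_nonneg b)]
    exact_mod_cast hb
  obtain ⟨g, hg, hga, hgb⟩ := Pool.Agent.H534R3.Rota.reduce_two_real (a : ℝ) (b : ℝ) ha1 hb1
    (irrational_log_ratio a b ha hb hab)
  have hc : Continuous (fun w => cst k (g w)) := (continuous_cst k).comp hg
  obtain ⟨F, hF, hFe⟩ := piThree_preimage hc hA
  obtain ⟨F', hF', hFe'⟩ := piThree_preimage hc hB
  refine Pool.Agent.H534R3.Rota.no_dual
    (fun w t => ∀ e, ∃ J, ∀ j, J ≤ j → Pool.Agent.H534R3.Rota.ty j = t → e ≤ w j)
    (fun w t => Iff.rfl) F F' hF hF' ?_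
  rw [← hFe, ← hFe', ← Set.preimage_sdiff, ← hAB, Set.preimage_compl]
  congr 1
  ext w
  simp only [Set.mem_setOf_eq, Set.mem_preimage, Set.mem_sdiff, cst_mem]
  rw [hga, hgb]

end Pool.Agent.Results.MP_df8ac3_lc.Complete
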